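import Mathlib

/-!
# Dominating paths in local edge-domination-critical graphs

Every connected `3`-`(γ, 2)`-critical graph contains a dominating path
(a question of Henning, Oellermann and Swart).
-/

set_option autoImplicit false

namespace Pool.Agent.Results.MP_8fbeef_co.DominatingPath

variable {V : Type*}

/-- `D` is a dominating set of the graph `G`: every vertex outside `D` has a neighbour in `D`. -/
def Dominating (G : SimpleGraph V) (D : Set V) : Prop :=
  ∀ v, v ∉ D → ∃ w ∈ D, G.Adj v w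

/-- The domination number `γ(G)`: the minimum size of a dominating set. -/
noncomputable def domNumber (G : SimpleGraph V) : ℕ :=
  sInf {n | ∃ D : Finset V, Dominating G (D : Set V) ∧ D.card = n}

/-- The distance between `u` and `v` in `G` is at most `r`. -/
def DistLe (G : SimpleGraph V) (r : ℕ) (u v : V) : Prop :=
  ∃ p : G.Walk u v, p.length ≤ r

/-- `G` is `k`-`(γ, r)`-critical: `γ(G) = k` and `γ(G + uv) < k` for all nonadjacent vertices
`u ≠ v` at distance at most `r`. -/
def LocalCritical (k r : ℕ) (G : SimpleGraph V) : Prop :=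
  domNumber G = k ∧ ∀ u v : V, u ≠ v → ¬ G.Adj u v → DistLe G r u v →
    domNumber (G ⊔ SimpleGraph.edge u v) < k

theorem Dominating.mono {G : SimpleGraph V} {D T : Set V} (h : Dominating G D) (hDT : D ⊆ T) :
    Dominating G T := by
  intro v hv
  obtain ⟨w, hw, hvw⟩ := h v fun h' => hv (hDT h')
  exact ⟨w, hDT hw, hvw⟩

/-- In a connected graph, an edge `s w` and a vertex `w'` are on a common path. -/
theorem exists_path {G : SimpleGraph V} (hG : G.Connected) {s w w' : V} (hsw : G.Adj s w) :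
    ∃ (a b : V) (p : G.Walk a b), p.IsPath ∧ s ∈ p.support ∧ w ∈ p.support ∧ w' ∈ p.support := by
  classical
  obtain ⟨q⟩ := hG.preconnected w w'
  let q' : G.Walk w w' := q.bypass
  have hq' : q'.IsPath := q.bypass_isPath
  by_cases hs : s ∈ q'.support
  · exact ⟨w, w', q', hq', hs, q'.start_mem_support, q'.end_mem_support⟩
  · refine ⟨s, w', SimpleGraph.Walk.cons hsw q', ?_, ?_, ?_, ?_⟩
    · rw [SimpleGraph.Walk.cons_isPath_iff]
      exact ⟨hq', hs⟩
    · simp
    · simp
    · simp

/-- **Every connected `3`-`(γ, 2)`-critical graph contains a dominating path.** -/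
theorem result [Fintype V] (G : SimpleGraph V) (hG : G.Connected) (hc : LocalCritical 3 2 G) :
    ∃ (a b : V) (p : G.Walk a b), p.IsPath ∧ Dominating G {v | v ∈ p.support} := by
  classical
  obtain ⟨h3, hcrit⟩ := hc
  -- no dominating set with at most two elements
  have hno : ∀ D : Finset V, D.card ≤ 2 → ¬ Dominating G (D : Set V) := by
    intro D hD hdom
    have h1 : domNumber G ≤ D.card := Nat.sInf_le ⟨D, hdom, rfl⟩
    omega
  -- two vertices at distance two
  obtain ⟨x⟩ := hG.nonempty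
  have hx := hno {x} (by simp)
  have hy : ∃ y, y ≠ x ∧ ¬ G.Adj y x := by
    unfold Dominating at hx
    push Not at hx
    obtain ⟨y, hy1, hy2⟩ := hx
    refine ⟨y, by simpa using hy1, hy2 x (by simp)⟩
  obtain ⟨y, hyx, hyadj⟩ := hy
  obtain ⟨s, t, hst, hxs, hxt, hnxt⟩ : ∃ s t, G.Adj s t ∧ G.Adj x s ∧ x ≠ t ∧ ¬ G.Adj x t := by
    obtain ⟨p⟩ := hG.preconnected x y
    obtain ⟨d, hd, hd1, hd2⟩ := p.exists_boundary_dart {v | v = x ∨ G.Adj x v} (Or.inl rfl)
      (by
        rintro (h | h)
        · exact hyx h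
        · exact hyadj h.symm)
    refine ⟨d.fst, d.snd, d.adj, ?_, ?_, ?_⟩
    · rcases hd1 with h | h
      · exact absurd (Or.inr (h ▸ d.adj)) hd2
      · exact h
    · intro h
      exact hd2 (Or.inl h.symm)
    · intro h
      exact hd2 (Or.inr h)
  have hdist : DistLe G 2 x t :=
    ⟨SimpleGraph.Walk.cons hxs (SimpleGraph.Walk.cons hst SimpleGraph.Walk.nil), by simp⟩
  have hlt := hcrit x t hxt hnxt hdist
  obtain ⟨D, hD, hDc⟩ : ∃ D : Finset V, Dominating (G ⊔ SimpleGraph.edge x t) (D : Set V) ∧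
      D.card = domNumber (G ⊔ SimpleGraph.edge x t) := by
    have hne : {n | ∃ D : Finset V, Dominating (G ⊔ SimpleGraph.edge x t) (D : Set V) ∧
        D.card = n}.Nonempty := by
      refine ⟨_, Finset.univ, ?_, rfl⟩
      intro v hv
      simp at hv
    exact Nat.sInf_mem hne
  have hD2 : D.card ≤ 2 := by omega
  have hnD := hno D hD2
  unfold Dominating at hnD
  push Not at hnD
  obtain ⟨z, hzD, hz⟩ := hnD
  -- the vertex `z` is dominated through the new edge only
  obtain ⟨w, hwD, hzw⟩ := hD z hzD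
  have hedge : ∀ {a b : V}, (G ⊔ SimpleGraph.edge x t).Adj a b → ¬ G.Adj a b →
      (a = x ∧ b = t) ∨ (a = t ∧ b = x) := by
    intro a b h1 h2
    rw [SimpleGraph.sup_adj, SimpleGraph.edge_adj] at h1
    rcases h1 with h1 | ⟨h1, -⟩
    · exact absurd h1 h2
    · rcases h1 with ⟨rfl, rfl⟩ | ⟨rfl, rfl⟩
      · exact Or.inl ⟨rfl, rfl⟩
      · exact Or.inr ⟨rfl, rfl⟩
  have hzw' := hedge hzw (hz w hwD)
  have hsw : G.Adj s w := by
    rcases hzw' with ⟨-, rfl⟩ | ⟨-, rfl⟩
    · exact hst
    · exact hxs.symm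
  have hzs : G.Adj z s := by
    rcases hzw' with ⟨rfl, -⟩ | ⟨rfl, -⟩
    · exact hxs
    · exact hst.symm
  -- all other vertices are dominated by `D` in `G`
  have hdom : ∀ v, v ∉ D → v ≠ z → ∃ d ∈ D, G.Adj v d := by
    intro v hv hvz
    obtain ⟨d, hdD, hvd⟩ := hD v hv
    refine ⟨d, hdD, ?_⟩
    by_contra hcon
    have h1 := hedge hvd hcon
    have hwz : w ≠ z := fun h => hzD (h ▸ hwD)
    have hvw : v = w := by
      rcases h1 with ⟨h1, -⟩ | ⟨h1, -⟩ <;> rcases hzw' with ⟨h2, h3⟩ | ⟨h2, h3⟩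
      · exact absurd (h1.trans h2.symm) hvz
      · exact h1.trans h3.symm
      · exact h1.trans h3.symm
      · exact absurd (h1.trans h2.symm) hvz
    exact hv (hvw ▸ hwD)
  obtain ⟨w', hw'⟩ : ∃ w', D ⊆ {w, w'} := by
    have h1 : (D.erase w).card ≤ 1 := by
      rw [Finset.card_erase_of_mem hwD]
      omega
    have : Nonempty V := ⟨w⟩
    rcases (Finset.card_le_one_iff_subset_singleton.1 h1) with ⟨w', hw'⟩
    refine ⟨w', fun v hv => ?_⟩
    by_cases hvw : v = w
    · simp [hvw]
    · have := hw' (Finset.mem_erase.2 ⟨hvw, hv⟩)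
      simp only [Finset.mem_singleton] at this
      simp [this]
  obtain ⟨a, b, p, hp, hps, hpw, hpw'⟩ := exists_path hG (w' := w') hsw
  refine ⟨a, b, p, hp, ?_⟩
  have hDp : ∀ d ∈ D, d ∈ p.support := by
    intro d hd
    have := hw' hd
    simp only [Finset.mem_insert, Finset.mem_singleton] at this
    rcases this with rfl | rfl
    · exact hpw
    · exact hpw'
  intro v hv
  by_cases hvz : v = z
  · subst hvz
    exact ⟨s, hps, hzs⟩
  · have hvD : v ∉ D := fun h => hv (hDp v h)
    obtain ⟨d, hd, hvd⟩ := hdom v hvD hvz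
    exact ⟨d, hDp d hd, hvd⟩

end Pool.Agent.Results.MP_8fbeef_co.DominatingPath
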